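import Pool.Agent.Work.MP_91e6de_nt.All

set_option autoImplicit false

/-!
# The Kawaguchi-Silverman conjecture for finite polynomial skew products of the plane
-/

open Polynomial Filter Topology

namespace Pool.Agent.Results.MP_91e6de_nt.FiniteSkewProducts

variable {K : Type} [Field K]

/-- the map `(x, y) ↦ (g (x), F (x, y))` of the affine plane;
`F` is a polynomial in `y` whose coefficients are polynomials in `x` -/
noncomputable def skew (g : K[X]) (F : K[X][X]) (P : K × K) : K × K :=
  (g.eval P.1, F.evalEval P.1 P.2)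

/-- substitution of `A (x, y)` for `x` and of `B (x, y)` for `y` in `H (x, y)` -/
noncomputable def subst (H A B : K[X][X]) : K[X][X] :=
  H.eval₂ (eval₂RingHom (C.comp C) A) B

/-- the two coordinates of the `n`-th iterate of `skew g F`, as polynomials in `x` and `y` -/
noncomputable def iter (g : K[X]) (F : K[X][X]) : ℕ → K[X][X] × K[X][X]
  | 0 => (C X, X)
  | n + 1 => (subst (C g) (iter g F n).1 (iter g F n).2, subst F (iter g F n).1 (iter g F n).2)

/-- total degree of a polynomial in `x` and `y` -/
noncomputable def totalDegree (H : K[X][X]) : ℕ := H.support.sup fun i => i + (H.coeff i).natDegree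

/-- the degree of the `n`-th iterate -/
noncomputable def degIter (g : K[X]) (F : K[X][X]) (n : ℕ) : ℕ :=
  max (totalDegree (iter g F n).1) (totalDegree (iter g F n).2)

/-- the absolute logarithmic Weil height of the point `[x : y : 1]` -/
noncomputable def height [NumberField K] (P : K × K) : ℝ :=
  Height.logHeight ![P.1, P.2, 1] / Module.finrank ℚ K

open Pool.Agent.Work.MP_91e6de_nt in
theorem iterate_eq (g : K[X]) (F : K[X][X]) (P : K × K) (n : ℕ) :
    (skew g F)^[n] P = orb g F P n := by
  induction n with
  | zero => rfl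
  | succ n ih => rw [Function.iterate_succ_apply', ih]; rfl

open Pool.Agent.Work.MP_91e6de_nt in
theorem iter_eq (g : K[X]) (F : K[X][X]) (n : ℕ) :
    iter g F n = (C (gN g n), FN g F n) := by
  induction n with
  | zero => rfl
  | succ n ih =>
    have h : ∀ a : K[X], eval₂ (C.comp C) (C (gN g n) : K[X][X]) a = C (a.comp (gN g n)) := by
      intro a
      rw [Polynomial.comp, Polynomial.hom_eval₂]
    rw [iter, ih]
    refine Prod.ext ?_ ?_
    · simp only [subst, eval₂_C, coe_eval₂RingHom, gN]
      exact h g
    · simp only [subst, FN]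
      rw [Polynomial.comp, eval₂_map]
      congr 1
      ext a
      · simp
      · simp

open Pool.Agent.Work.MP_91e6de_nt in
theorem degIter_eq (g : K[X]) (F : K[X][X]) (n : ℕ) :
    degIter g F n = max (gN g n).natDegree (totDeg (FN g F n)) := by
  unfold degIter
  rw [iter_eq]
  congr 1
  simp only [totalDegree]
  by_cases h : gN g n = 0
  · simp [h]
  · rw [support_C h]
    simp

/-- evaluation of the iterates (sanity check) -/
theorem iter_eval (g : K[X]) (F : K[X][X]) (P : K × K) (n : ℕ) :
    (skew g F)^[n] P = ((iter g F n).1.evalEval P.1 P.2, (iter g F n).2.evalEval P.1 P.2) := by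
  have h := Pool.Agent.Work.MP_91e6de_nt.pr_OR K g F P 0 n
  rw [Nat.zero_add, show Pool.Agent.Work.MP_91e6de_nt.orb g F P 0 = P from rfl] at h
  rw [iterate_eq, iter_eq]
  refine Prod.ext ?_ ?_
  · rw [evalEval, eval_C]
    exact h.1
  · exact h.2.1

/-- Kawaguchi-Silverman for `(x, y) ↦ (g (x), c y ^ d + (lower terms in y))` -/
theorem result (K : Type) [Field K] [NumberField K] (g : K[X]) (F : K[X][X]) (c : K)
    (hg : 1 ≤ g.natDegree) (hF : 1 ≤ F.natDegree) (hc : F.leadingCoeff = C c) (P : K × K)
    (hP : ∀ H : K[X][X],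
      (∀ n : ℕ, H.evalEval ((skew g F)^[n] P).1 ((skew g F)^[n] P).2 = 0) → H = 0) :
    Tendsto (fun n : ℕ => (degIter g F n : ℝ) ^ ((1 : ℝ) / n)) atTop
      (𝓝 (max g.natDegree F.natDegree : ℕ)) ∧
    Tendsto (fun n : ℕ => height ((skew g F)^[n] P) ^ ((1 : ℝ) / n)) atTop
      (𝓝 (max g.natDegree F.natDegree : ℕ)) := by
  have hc0 : c ≠ 0 := by
    rintro rfl
    rw [C_0, leadingCoeff_eq_zero] at hc
    rw [hc] at hF
    simp at hF
  have h := Pool.Agent.Work.MP_91e6de_nt.all_FIN K g F c P hg hF hc hc0 (by
    intro H hH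
    apply hP H
    intro n
    rw [iterate_eq]
    exact hH n)
  refine ⟨?_, ?_⟩
  · simp only [degIter_eq]
    exact h.1
  · simp only [iterate_eq, height]
    have h2 := h.2
    rw [NumberField.totalWeight_eq_finrank] at h2
    exact h2

end Pool.Agent.Results.MP_91e6de_nt.FiniteSkewProducts
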