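import Mathlib
import Pool.Agent.Work.MP_91e6de_nt.DMR.All

set_option autoImplicit false

/-!
# The Kawaguchi-Silverman conjecture for families of regular polynomial automorphisms over the
translation of the affine line

The definitions are in `Pool.Agent.Work.MP_91e6de_nt.KS.Defs`.
-/

open MvPolynomial Filter Topology

namespace Pool.Agent.Results.MP_91e6de_nt.HenonFamilies

open Pool.Agent.Work.MP_91e6de_nt.KS

/-- Let `f (x, y) = (x + b, F (x, y))`, `b ≠ 0`, where `F (x, ·)` is a family of regular
polynomial automorphisms (for instance Henon maps) of `𝔸^(m+1)` of degree `d ≥ 2` over `K(x)`,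
`K` a number field. The dynamical degree of `f` is `d`, and the arithmetic degree of every
`K`-point with Zariski dense orbit exists and is `d`. -/
theorem result (m : ℕ) (K : Type) [Field K] [NumberField K] (d d' : ℕ) (b : K) (hb : b ≠ 0)
    (F G : Fin (m + 1) → MvPolynomial (Fin (m + 1)) (Polynomial K)) (r : Polynomial K)
    (hF : RegularFamily b d d' F G r) :
    Tendsto (fun n : ℕ => (degIterA b F n : ℝ) ^ ((1 : ℝ) / n)) atTop (𝓝 d) ∧
    ∀ (x : ℕ → K) (y : ℕ → Fin (m + 1) → K), (∀ n, x (n + 1) = x n + b) →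
      (∀ n i, y (n + 1) i = val (x n) (y n) (F i)) →
      (∀ H : MvPolynomial (Fin (m + 1)) (Polynomial K), (∀ n, val (x n) (y n) H = 0) → H = 0) →
        Tendsto (fun n : ℕ => heightA (x n) (y n) ^ ((1 : ℝ) / n)) atTop (𝓝 d) :=
  Pool.Agent.Work.MP_91e6de_nt.DMR.all_XC m K d d' b F G r hb hF

end Pool.Agent.Results.MP_91e6de_nt.HenonFamilies
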