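import Mathlib
import Pool.Agent.Work.MP_91e6de_nt.Bd.B09

set_option autoImplicit false

/-!
# The Kawaguchi-Silverman conjecture for rational skew products over a translation
-/

open MvPolynomial Filter Topology

namespace Pool.Agent.Work.MP_91e6de_nt.old.TranslationSkewProducts

/-- For a polynomial `A (x, y)` (variables `X 0 = x`, `X 1 = y`) of degree at most `d` in `y`: its
homogenisation `w ^ d * A (x, u / w)` in the second variable, evaluated at elements `x, u, w` of a
commutative algebra. -/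
noncomputable def form {K S : Type} [Field K] [CommRing S] [Algebra K S] (d : ℕ)
    (A : MvPolynomial (Fin 2) K) (x u w : S) : S :=
  ∑ m ∈ A.support, algebraMap K S (A.coeff m) * (x ^ m 0 * u ^ m 1 * w ^ (d - m 1))

/-- The rational self-map `(x, [u : w]) ↦ (x + b, [A (x, u, w) : B (x, u, w)])` of `ℙ¹ × ℙ¹`, that
is `(x, y) ↦ (x + b, A (x, y) / B (x, y))`, in homogeneous coordinates of the second factor. -/
noncomputable def skew {K : Type} [Field K] (d : ℕ) (A B : MvPolynomial (Fin 2) K) (b : K)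
    (P : K × K × K) : K × K × K :=
  (P.1 + b, form d A P.1 P.2.1 P.2.2, form d B P.1 P.2.1 P.2.2)

/-- Numerator and denominator of the second coordinate of the `n`-th iterate of
`(x, y) ↦ (x + b, A (x, y) / B (x, y))`; the first coordinate is `x + n b`. -/
noncomputable def iter {K : Type} [Field K] (d : ℕ) (A B : MvPolynomial (Fin 2) K) (b : K) :
    ℕ → MvPolynomial (Fin 2) K × MvPolynomial (Fin 2) K
  | 0 => (X 1, 1)
  | n + 1 => (form d A (X 0 + C (n * b)) (iter d A B b n).1 (iter d A B b n).2,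
      form d B (X 0 + C (n * b)) (iter d A B b n).1 (iter d A B b n).2)

/-- The degree `(fⁿ)^* L · L` of the `n`-th iterate for `L = O (1, 1)` on `ℙ¹ × ℙ¹`:
`1 + deg_x + deg_y` of the second coordinate of the `n`-th iterate, written as a reduced fraction
(the minimum over all fractions `P / Q` representing it). -/
noncomputable def degIter {K : Type} [Field K] (d : ℕ) (A B : MvPolynomial (Fin 2) K) (b : K)
    (n : ℕ) : ℕ :=
  sInf {r | ∃ P Q : MvPolynomial (Fin 2) K, Q ≠ 0 ∧ P * (iter d A B b n).2 = Q * (iter d A B b n).1 ∧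
    r = 1 + max (P.degreeOf 0) (Q.degreeOf 0) + max (P.degreeOf 1) (Q.degreeOf 1)}

/-- The absolute logarithmic Weil height of the point `(x, [u : w])` of `ℙ¹ × ℙ¹` (in the Segre
embedding): the sum of the heights of `[x : 1]` and `[u : w]`. -/
noncomputable def height {K : Type} [Field K] [NumberField K] (P : K × K × K) : ℝ :=
  (Height.logHeight₁ P.1 + Height.logHeight ![P.2.1, P.2.2]) / Module.finrank ℚ K

open Pool.Agent.Work.MP_91e6de_nt.DM in
theorem iter_eq {K : Type} [Field K] (d : ℕ) (A B : MvPolynomial (Fin 2) K) (b : K) (n : ℕ) :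
    iter d A B b n = itY d A B b n := by
  induction n with
  | zero => rfl
  | succ n ih =>
    simp only [iter, itY, ih]
    rfl

/-- Kawaguchi-Silverman for `(x, y) ↦ (x + b, A (x, y) / B (x, y))` -/
theorem result (K : Type) [Field K] [NumberField K] (d : ℕ) (hd : 2 ≤ d)
    (A B : MvPolynomial (Fin 2) K) (hA : A.degreeOf 1 ≤ d) (hB : B.degreeOf 1 ≤ d)
    (hAB : A.degreeOf 1 = d ∨ B.degreeOf 1 = d)
    (hcop : ∀ G : MvPolynomial (Fin 2) K, G ∣ A → G ∣ B → G.degreeOf 1 = 0)
    (b : K) (hb : b ≠ 0) (P : K × K × K) (hP : ∀ n : ℕ, ((skew d A B b)^[n] P).2 ≠ 0)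
    (hdense : ∀ (e : ℕ) (G : MvPolynomial (Fin 2) K), G.degreeOf 1 ≤ e →
      (∀ n : ℕ, form e G ((skew d A B b)^[n] P).1 ((skew d A B b)^[n] P).2.1
        ((skew d A B b)^[n] P).2.2 = 0) → G = 0) :
    Tendsto (fun n : ℕ => (degIter d A B b n : ℝ) ^ ((1 : ℝ) / n)) atTop (𝓝 (d : ℝ)) ∧
    Tendsto (fun n : ℕ => height ((skew d A B b)^[n] P) ^ ((1 : ℝ) / n)) atTop (𝓝 (d : ℝ)) := by
  have h := Pool.Agent.Work.MP_91e6de_nt.DM.all_ThI K d A B b
    (fun n => ((skew d A B b)^[n] P).1) (fun n => ((skew d A B b)^[n] P).2.1)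
    (fun n => ((skew d A B b)^[n] P).2.2) hd ⟨hcop, hA, hB, hAB⟩ hb
    (fun n => by rw [Function.iterate_succ_apply']; rfl)
    (fun n => by rw [Function.iterate_succ_apply']; rfl)
    (fun n => by rw [Function.iterate_succ_apply']; rfl)
    (fun n hn => hP n (by
      have h0 := congrFun hn 0
      have h1 := congrFun hn 1
      simp only [Matrix.cons_val_zero, Matrix.cons_val_one, Pi.zero_apply] at h0 h1
      exact Prod.ext h0 h1))
    hdense
  refine ⟨?_, h.2⟩
  have e : ∀ n, degIter d A B b n = Pool.Agent.Work.MP_91e6de_nt.DM.dgY d A B b n := by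
    intro n
    simp only [degIter, Pool.Agent.Work.MP_91e6de_nt.DM.dgY, iter_eq]
  simp only [e]
  exact h.1

end Pool.Agent.Work.MP_91e6de_nt.old.TranslationSkewProducts
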